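import Pool.Agent.H97.PRK.Targets

/-!
# Row HOM of the board PRK (MP_e37c09_lc): regressive functions are constant on final segments
-/

open _root_.HD HD.PRK
open Ordinal Cardinal Order Set
open scoped ZFSet

universe u

namespace Pool.Agent.H57.PRK

/-- HOM. -/
theorem pf_HOM : T_HOM.{u} := by
  intro en M K c C t e g A hA β hβ hβ0 hU f hf hfun hreg
  -- `β` is closed under `t`
  have hcl : ∀ a < β, ∀ b < β, t a b < β := by
    rcases hβ.lt_or_eq with hlt | rfl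
    · refine (g.cl β ?_ hlt).2
      refine g.clb.cls β hlt hβ0 fun y hy => ?_
      obtain ⟨a, haA, hya, haβ⟩ := hU y hy
      exact ⟨a, haβ, hya, (hA a haA).1⟩
    · exact g.tlt
  -- the set `X`
  set X : Set Ordinal.{u} := {x | ∃ a < β, ∃ b < β,
    ZFSet.pair a.toZFSet b.toZFSet ∈ f ∧ x = t a b} with hX
  have hXd : DS X := by
    have h1 := OD.dr hf.self
    have h2 := g.tdo
    refine (DO.exLtc (R := fun a w => ∃ b < β, ZFSet.pair a.toZFSet b.toZFSet ∈ f ∧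
      w 0 = t a b) β (DO.exLtc (R := fun b w => ZFSet.pair (w 0).toZFSet b.toZFSet ∈ f ∧
      w 1 = t (w 0) b) β (DO.and ?_ ?_))).congr fun w => Iff.rfl
    · exact DO.s2 (X := fun a b => ZFSet.pair a.toZFSet b.toZFSet ∈ f) h1 1 0
    · exact DO.s3 (X := fun a b x => x = t a b) h2 1 0 2
  have hXh : HOD (os β X) := hod_os hXd β
  have hXs : os β X ⊆ β.toZFSet := fun z hz => by
    obtain ⟨a, ha, -, rfl⟩ := mem_os.1 hz
    exact ZFSet.mem_sep.1 hz |>.1
  obtain ⟨z, hz, hze⟩ : ∃ z < β, os β X = e z ∩ β.toZFSet := by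
    rcases hβ.lt_or_eq with hlt | rfl
    · refine g.ve1 β ?_ hlt _ hXh hXs
      refine g.clb.cls β hlt hβ0 fun y hy => ?_
      obtain ⟨a, haA, hya, haβ⟩ := hU y hy
      exact ⟨a, haβ, hya, (hA a haA).1⟩
    · obtain ⟨z, hz, hze⟩ := g.ve2 _ hXh hXs
      refine ⟨z, hz, ?_⟩
      rw [hze]
      ext w
      rw [ZFSet.mem_inter]
      exact ⟨fun h => ⟨h, (g.he z).2 h⟩, fun h => h.1⟩
  -- membership
  have hmem : ∀ a < β, ∀ b < β, ((t a b).toZFSet ∈ e z ↔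
      ZFSet.pair a.toZFSet b.toZFSet ∈ f) := by
    intro a ha b hb
    have ht := hcl a ha b hb
    have h1 : (t a b).toZFSet ∈ os β X ↔ (t a b).toZFSet ∈ e z := by
      rw [hze, ZFSet.mem_inter]
      exact ⟨fun h => h.1, fun h => ⟨h, toZFSet_mem_toZFSet_iff.2 ht⟩⟩
    rw [← h1, ord_mem_os]
    constructor
    · rintro ⟨-, a', ha', b', hb', hp, he⟩
      obtain ⟨rfl, rfl⟩ := g.tinj _ _ _ _ he
      exact hp
    · intro hp
      exact ⟨ht, a, ha, b, hb, hp, rfl⟩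
  have hval : ∀ a < β, 0 < a → ∃ b < a, ZFSet.pair a.toZFSet b.toZFSet ∈ f := by
    intro a ha ha0
    obtain ⟨w, hw, -⟩ := hfun.2 a.toZFSet (toZFSet_mem_toZFSet_iff.2 ha)
    have h1 := hfun.1 hw
    rw [ZFSet.pair_mem_prod] at h1
    obtain ⟨b, -, rfl⟩ := mem_toZFSet_iff.1 h1.2
    exact ⟨b, hreg a b hw ha0, hw⟩
  have hzK : z < K.ord := lt_of_lt_of_le hz hβ
  rcases g.nrm z hzK with ⟨n0, h⟩ | h
  · refine ⟨succ z, ?_, n0, fun a haA hza haβ => ?_⟩
    · obtain ⟨a, -, hza, haβ⟩ := hU z hz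
      exact lt_of_le_of_lt (succ_le_of_lt hza) haβ
    · obtain ⟨haC, haE, haM⟩ := hA a haA
      obtain ⟨h1, h2, -⟩ := h a haC haE haM (lt_of_lt_of_le (lt_succ z) hza)
        (lt_of_lt_of_le haβ hβ)
      exact (hmem a haβ n0 (h1.trans haβ)).1 h2
  · exfalso
    obtain ⟨a, haA, hza, haβ⟩ := hU z hz
    obtain ⟨haC, haE, haM⟩ := hA a haA
    obtain ⟨b, hba, hp⟩ := hval a haβ (lt_of_le_of_lt zero_le hza)
    exact h a haC haE haM hza (lt_of_lt_of_le haβ hβ) b hba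
      ((hmem a haβ b (hba.trans haβ)).2 hp)

end Pool.Agent.H57.PRK
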